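import Pool.Agent.H29.FX.Targets
import Pool.Agent.H29.FX.Targets2

/-!
# Triples with one dusty entry (MP_7ecdd4_nt): definitions
-/

set_option autoImplicit false

open Finset MvPolynomial

namespace Pool.Agent.H26.QQ

open Pool.Agent.H29.FX
open Pool.Agent.H38.AE.Statement

/-- `F` is divisible by the `E`-th powers of primes `l ≤ Y ^ γ` with product at least `Y ^ ε`. -/
def Dust (E : ℕ) (γ ε Y : ℝ) (F : ℤ) : Prop :=
  ∃ D : Finset ℕ, (∀ l ∈ D, l.Prime ∧ (l : ℝ) ≤ Y ^ γ ∧ (l : ℤ) ^ E ∣ F) ∧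
    Y ^ ε ≤ ∏ l ∈ D, (l : ℝ)

/-- the sum of the first two entries -/
noncomputable def fq {n : ℕ} (pt : Fin n → Fin 3) (e : Fin n → ℕ) (u w : ℤ) : Pl n :=
  C u * en pt e 0 + C w * en pt e 1

/-- the difference of the first two logarithmic derivatives -/
noncomputable def gd {n : ℕ} (pt : Fin n → Fin 3) (e : Fin n → ℕ) (D : Dr n) : Pl n :=
  lg pt e D 0 - lg pt e D 1

/-- the pairs with a dusty sum -/
structure Sq {n : ℕ} (pt : Fin n → Fin 3) (e : Fin n → ℕ) (u w : ℤ) (Y : ℝ) (E : ℕ)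
    (γ ε H : ℝ) (z : Fin n → ℤ) : Prop where
  pos : ∀ v, 1 ≤ z v
  le : ∏ v, (z v : ℝ) ≤ Y
  cop : IsCoprime (u * eval z (en pt e 0)) (w * eval z (en pt e 1))
  sm0 : |((u * eval z (en pt e 0) : ℤ) : ℝ)| ≤ H
  sm1 : |((w * eval z (en pt e 1) : ℤ) : ℝ)| ≤ H
  dust : Dust E γ ε Y (eval z (fq pt e u w))

/-- flat points: the difference of the two logarithmic derivatives vanishes to the order `s` -/
def Fl2 {n : ℕ} (pt : Fin n → Fin 3) (e : Fin n → ℕ) (L : Tw n) (s : ℕ) (z : Fin n → ℤ) :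
    Prop :=
  ∀ (i : Fin n) (α : Fin n → ℕ), ∑ v, α v < s →
    eval z (dw (TD L) α (gd pt e (TD L i))) = 0

/-- the bound for the pairs on a tower with `m` remaining variables -/
def RecQ (n : ℕ) (δ ε : ℝ) (m B : ℕ) : Prop :=
  ∃ (E : ℕ) (γ c X₀ : ℝ), 0 < γ ∧ 0 < c ∧ 2 ≤ X₀ ∧ ∀ (X H : ℝ) (pt : Fin n → Fin 3)
    (e : Fin n → ℕ) (u w : ℤ) (L : Tw n) (S : Finset (Fin n → ℤ)), X₀ ≤ X →
    H ≤ Real.exp (X ^ c) → (∀ v, 1 ≤ e v ∧ (e v : ℝ) ≤ X) → u ≠ 0 → w ≠ 0 → Gd L →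
    (TI L).card = m → (∀ q ∈ L, Cx X B q.1) →
    (∀ z ∈ S, Sq pt e u w X E γ ε H z ∧ On L z ∧ eval z (TJ L) ≠ 0) →
    Set.InjOn (fun z => (eval z (en pt e 0), eval z (en pt e 1))) (S : Set (Fin n → ℤ)) →
    (S.card : ℝ) ≤ X ^ (((m : ℝ) + 1) * (2 * n + 6) * δ)

/-- The admissible triples of height at most `H` with a dusty entry `a` whose other two entries
are of the form `u i` times `k` powers. -/
def DustPowers (k : ℕ) (u : Fin 3 → ℤ) (a : Fin 3) (E : ℕ) (γ ε Y H : ℝ) :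
    Set (Fin 3 → ℤ) :=
  {x | Admissible x ∧ (∃ z e : Fin 3 → Fin k → ℕ, (∀ i j, 1 ≤ z i j ∧ 1 ≤ e i j) ∧
    (∀ i, i ≠ a → x i = u i * ∏ j, (z i j : ℤ) ^ e i j) ∧ ∏ i, ∏ j, (z i j : ℝ) ≤ Y) ∧
    (∀ i, |(x i : ℝ)| ≤ H) ∧ Dust E γ ε Y (x a)}

/-- The admissible triples with radical at most `Y` and height at most `H` with a dusty entry
`a` whose other two entries have at most `k` distinct exponents outside some `Q ≤ R`. -/
def DustFew (k : ℕ) (a : Fin 3) (E : ℕ) (γ ε R Y H : ℝ) : Set (Fin 3 → ℤ) :=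
  {x | Admissible x ∧ (radical (∏ i, x i) : ℝ) ≤ Y ∧ (∀ i, |(x i : ℝ)| ≤ H) ∧
    Dust E γ ε Y (x a) ∧
    ∃ Q : ℕ, 1 ≤ Q ∧ (Q : ℝ) ≤ R ∧ (exponents Q (∏ i ∈ univ.erase a, x i)).card ≤ k}

/-- The admissible triples whose product has radical at most `Y`, with largest entry between
`Y ^ M` and `H`, such that two of the entries have together at most `k` distinct exponents
outside some integer `Q ≤ R`. -/
def TwoFew (k : ℕ) (M R Y H : ℝ) : Set (Fin 3 → ℤ) :=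
  {x | Admissible x ∧ (radical (∏ i, x i) : ℝ) ≤ Y ∧ (∃ i, Y ^ M < |(x i : ℝ)|) ∧
    (∀ i, |(x i : ℝ)| ≤ H) ∧ ∃ (a : Fin 3) (Q : ℕ), 1 ≤ Q ∧ (Q : ℝ) ≤ R ∧
      (exponents Q (∏ i ∈ univ.erase a, x i)).card ≤ k}

end Pool.Agent.H26.QQ
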