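import Pool.Agent.H26.QQ.Targets
import Pool.Agent.H26.TFX.STP

/-!
Row STQ of qq_modules (MP_7ecdd4_nt): the step of the recursion.
-/

set_option autoImplicit false

open Finset MvPolynomial

namespace Pool.Agent.H26.QQ

open Pool.Agent.H29.FX
open Pool.Agent.H26.TFX (STP_card STP_coord STP_res STP_ev STP_pow STP_cnt)

/-- the labels: flat points, near-units, additional exact equations -/
abbrev STQ_Lb (n s : ℕ) : Type := Option (Fin n ⊕ (Fin n × (Fin n → Fin s) × Fin n))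

/-- the modulus of a class -/
def STQ_md {n s : ℕ} (m v : ℕ) : STQ_Lb n s → ℕ
  | some (Sum.inl _) => m ^ ((v + 1) + (n + 1) * v)
  | _ => m

/-- the bound for one class, for `m` remaining variables -/
def STQ_GS (n m B B₁ : ℕ) (δ ε : ℝ) : Prop :=
    ∃ (E : ℕ) (γ c Y₀ : ℝ), 0 < γ ∧ 0 < c ∧ 2 ≤ Y₀ ∧ ∀ (Y H γ' : ℝ) (pt : Fin n → Fin 3)
      (e : Fin n → ℕ) (u w : ℤ) (L : Tw n) (G : Pl n) (E' : ℕ) (S : Finset (Fin n → ℤ)),
      Y₀ ≤ Y → E ≤ E' → γ' ≤ γ → H ≤ Real.exp (Y ^ c) →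
      (∀ v, 1 ≤ e v ∧ (e v : ℝ) ≤ Y) → u ≠ 0 → w ≠ 0 → Gd L → (TI L).card = m →
      (∀ q ∈ L, Cx Y B q.1) → G ≠ 0 → G.vars ⊆ TI L → Cx Y B₁ G → (TI L).Nonempty →
      (∀ z ∈ S, Sq pt e u w Y E' γ' ε H z ∧ On L z ∧ eval z (TJ L) ≠ 0 ∧ eval z G = 0) →
      Set.InjOn (fun z => (eval z (en pt e 0), eval z (en pt e 1))) (S : Set (Fin n → ℤ)) →
      (S.card : ℝ) ≤ Y ^ (δ / 2) * Y ^ ((m : ℝ) * (2 * n + 6) * δ)

theorem STQ_cx {n : ℕ} {Y : ℝ} {B B' : ℕ} {f : Pl n} (hY : 1 ≤ Y) (hB : B ≤ B')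
    (h : Cx Y B f) : Cx Y B' f :=
  ⟨h.deg.trans hB, h.le.trans (pow_le_pow_right₀ hY hB)⟩

theorem STQ_gen (hCVQ : T_CVQ) (hCLQ : T_CLQ) (hCLS : T_CLS) (hNUM : T_NUM) (hFL2 : T_FL2) :
    ∀ (n m B : ℕ) (δ ε : ℝ), 0 < δ → δ ≤ 1 → 0 < ε → (∀ B₁, STQ_GS n m B B₁ δ ε) →
      RecQ n δ ε m B := by
  classical
  intro n m B δ ε hδ hδ1 hε hgs
  obtain ⟨v, hv⟩ := hCVQ n B δ ε hδ hδ1 hε
  have hn2 : (0 : ℝ) < (n : ℝ) + 2 := by positivity
  have hδn : 0 < δ / (n + 2) := div_pos hδ hn2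
  obtain ⟨r, B₁, Y₁, hr1, hY₁, hclq⟩ := hCLQ n v (δ / (n + 2)) hδn
  obtain ⟨B₂, Y₂, hY₂, hcls⟩ := hCLS n δ hδ
  obtain ⟨E₀, γ₀, c₀, Y₃, hγ₀, hc₀, hY₃, hA⟩ := hgs (max B₁ B₂)
  obtain ⟨γ₁, hγ₁, hv2⟩ := hv r
  set c : ℝ := min c₀ (δ / (8 * (n + 1))) with hc
  have hn0 : (0 : ℝ) < 8 * (n + 1) := by positivity
  have hc0 : 0 < c := lt_min hc₀ (div_pos hδ hn0)
  have hcδ : c ≤ δ / (8 * (n + 1)) := min_le_right _ _
  obtain ⟨Y₄, hY₄, hV⟩ := hv2 c hc0 hcδ
  obtain ⟨Y₅, hY₅, hN⟩ := hNUM n δ c hδ hδ1 hc0 hcδ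
  obtain ⟨X₀, hX₀, hX⟩ := STP_ev δ hδ 2 0 (max Y₁ (max Y₂ (max Y₃ (max Y₄ Y₅))))
  set E : ℕ := max E₀ ((v + 1) * (r + 1)) with hE
  set γ : ℝ := min γ₀ γ₁ with hγ
  refine ⟨E, γ, c, X₀, lt_min hγ₀ hγ₁, hc0, hX₀, ?_⟩
  intro X H pt e u w L S hXX hH he hu hw hG hcard hCx hS hinj
  obtain ⟨hW2, -, hXY⟩ := hX X hXX
  have hX2 : 2 ≤ X := hX₀.trans hXX
  have hX1 : 1 ≤ X := by linarith
  have hX0 : 0 < X := by linarith
  have hXY₁ : Y₁ ≤ X := (le_max_left _ _).trans hXY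
  have hXY' := (le_max_right _ _).trans hXY
  have hXY₂ : Y₂ ≤ X := (le_max_left _ _).trans hXY'
  have hXY'' := (le_max_right _ _).trans hXY'
  have hXY₃ : Y₃ ≤ X := (le_max_left _ _).trans hXY''
  have hXY''' := (le_max_right _ _).trans hXY''
  have hXY₄ : Y₄ ≤ X := (le_max_left _ _).trans hXY'''
  have hXY₅ : Y₅ ≤ X := (le_max_right _ _).trans hXY'''
  obtain ⟨hN1, hN2, hN3⟩ := hN X hXY₅
  set s : ℕ := ⌊X ^ (2 * c)⌋₊ with hs
  set W : ℝ := X ^ δ with hWdef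
  have hW0 : 0 ≤ W := by linarith
  have hW1 : 1 ≤ W := by linarith
  have hvE : v + 1 ≤ E := by
    refine le_trans ?_ (le_max_right _ _)
    exact Nat.le_mul_of_pos_right _ (Nat.succ_pos r)
  have hrE : (v + 1) * r ≤ E := by
    refine le_trans ?_ (le_max_right _ _)
    exact Nat.mul_le_mul_left _ (Nat.le_succ r)
  have hH1 : H ≤ Real.exp (X ^ c₀) := by
    refine hH.trans (Real.exp_le_exp.2 ?_)
    exact Real.rpow_le_rpow_of_exponent_le hX1 (min_le_left _ _)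
  -- the choice of the class
  have hex : ∀ z : Fin n → ℤ, ∃ (p : ℕ) (q : STQ_Lb n s), z ∈ S →
      1 ≤ p ∧ (STQ_md p v q : ℝ) ≤ W ^ 2 ∧ (p : ℝ) ≤ W ^ 2 ∧
      (q = none → p.Prime ∧ W ≤ p ∧ ¬ (p : ℤ) ∣ eval z (TJ L) ∧ Fl2 pt e L s z) ∧
      (∀ i, q = some (Sum.inl i) → i ∈ TI L ∧ 2 ≤ p ∧ Squarefree p ∧
        (∀ l : ℕ, l.Prime → l ∣ p → r ≤ l) ∧ X ^ (δ / (n + 2)) ≤ (p : ℝ) ^ (v + 1) ∧
        (p : ℤ) ^ E ∣ eval z (fq pt e u w) ∧
        ∀ l : ℕ, l.Prime → l ∣ p →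
          ¬ (l : ℤ) ^ (v + 1) ∣ eval z (TJ ((fq pt e u w, i) :: L))) ∧
      (∀ i β j, q = some (Sum.inr (i, β, j)) → p.Prime ∧ W ≤ p ∧
        ¬ (p : ℤ) ∣ eval z (TJ L) ∧ j ∈ TI L ∧
        eval z (dw (TD L) (fun v => (β v : ℕ)) (gd pt e (TD L i))) = 0 ∧
        ¬ (p : ℤ) ∣ eval z (TD L j (dw (TD L) (fun v => (β v : ℕ)) (gd pt e (TD L i))))) := by
    intro z
    by_cases hz : z ∈ S
    · obtain ⟨hz1, hz2, hz3⟩ := hS z hz
      rcases hV X H γ pt e u w L z E hXY₄ hvE (min_le_right _ _) hH he hG hCx hz1 hz3 with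
        ⟨i, Q, hi, hQ2, hQs, hQr, hQ1, hQ3, hQE, hQJ⟩ | ⟨p, hp1, hp2, hp3, hp4, hp5⟩
      · have hQ0 : (1 : ℝ) ≤ (Q : ℝ) := by
          have : (2 : ℝ) ≤ (Q : ℝ) := by exact_mod_cast hQ2
          linarith
        have hQW : (Q : ℝ) ^ ((v + 1) * (n + 2)) ≤ W ^ 2 := by
          rw [pow_mul]
          calc ((Q : ℝ) ^ (v + 1)) ^ (n + 2) ≤ (X ^ (2 * (δ / (n + 2)))) ^ (n + 2) :=
                pow_le_pow_left₀ (by positivity) hQ3 _
            _ = W ^ 2 := by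
                rw [hWdef, ← STP_pow X δ hX0.le 2, ← Real.rpow_natCast, ← Real.rpow_mul hX0.le]
                congr 1
                push_cast
                field_simp
        refine ⟨Q, some (Sum.inl i), fun _ => ⟨by omega, ?_, ?_, by simp, ?_, by simp⟩⟩
        · refine le_trans ?_ hQW
          show (((Q ^ ((v + 1) + (n + 1) * v) : ℕ)) : ℝ) ≤ _
          push_cast
          refine pow_le_pow_right₀ hQ0 ?_
          ring_nf
          nlinarith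
        · refine le_trans ?_ hQW
          calc (Q : ℝ) = (Q : ℝ) ^ 1 := (pow_one _).symm
            _ ≤ _ := pow_le_pow_right₀ hQ0 (Nat.mul_pos (Nat.succ_pos v) (by omega))
        · intro i' h
          simp only [Option.some.injEq, Sum.inl.injEq] at h
          subst h
          exact ⟨hi, hQ2, hQs, hQr, hQ1, hQE, hQJ⟩
      · have hp3' : (p : ℝ) ≤ W ^ 2 := by
          rw [hWdef, ← STP_pow X δ hX0.le 2]
          push_cast
          exact hp3
        rcases hp5 with hfl | ⟨i, β, j, hj1, hj2, hj3⟩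
        · exact ⟨p, none, fun _ => ⟨hp1.pos, hp3', hp3', fun _ => ⟨hp1, hp2, hp4, hfl⟩,
            by simp, by simp⟩⟩
        · refine ⟨p, some (Sum.inr (i, β, j)), fun _ => ⟨hp1.pos, hp3', hp3', by simp, by simp,
            ?_⟩⟩
          intro i' β' j' h
          simp only [Option.some.injEq, Sum.inr.injEq, Prod.mk.injEq] at h
          obtain ⟨rfl, rfl, rfl⟩ := h
          exact ⟨hp1, hp2, hp4, hj1, hj2, hj3⟩
    · exact ⟨0, none, fun h => absurd h hz⟩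
  choose p q hpq using hex
  set b : ℝ := X ^ (δ / 2) * X ^ ((m : ℝ) * (2 * n + 6) * δ) with hb
  have hb1 : 1 ≤ b := by
    have h1 : 1 ≤ X ^ (δ / 2) := Real.one_le_rpow hX1 (by positivity)
    have h2 : 1 ≤ X ^ ((m : ℝ) * (2 * n + 6) * δ) :=
      Real.one_le_rpow hX1 (by positivity)
    rw [hb]
    nlinarith
  have hb0 : 0 ≤ b := by linarith
  have hmain := STP_card S
    (fun z => (((p z, fun a => (z a % (STQ_md (p z) v (q z) : ℤ)).toNat), q z) :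
      (ℕ × (Fin n → ℕ)) × STQ_Lb n s))
    ((range (⌊W ^ 2⌋₊ + 1) ×ˢ Fintype.piFinset (fun _ : Fin n => range ⌊W ^ 2⌋₊)) ×ˢ
      (univ : Finset (STQ_Lb n s)))
    (by
      intro z hz
      obtain ⟨h1, h2, h3, -⟩ := hpq z hz
      have h5 : p z ≤ ⌊W ^ 2⌋₊ := Nat.le_floor h3
      have h6 : STQ_md (p z) v (q z) ≤ ⌊W ^ 2⌋₊ := Nat.le_floor h2
      have h7 : 0 < STQ_md (p z) v (q z) := by
        rcases q z with _ | (i | t)
        · exact h1
        · exact Nat.pow_pos h1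
        · exact h1
      rw [mem_product, mem_product, Fintype.mem_piFinset]
      refine ⟨⟨?_, fun a => ?_⟩, mem_univ _⟩
      · rw [mem_range]
        exact Nat.lt_succ_of_le h5
      · rw [mem_range]
        exact lt_of_lt_of_le (STP_res (z a) (STQ_md (p z) v (q z)) h7).1 h6) b
    (by
      rintro ⟨⟨p₀, r₀⟩, q₀⟩ _
      set F := S.filter (fun z => (((p z, fun a => (z a % (STQ_md (p z) v (q z) : ℤ)).toNat),
        q z) : (ℕ × (Fin n → ℕ)) × STQ_Lb n s) = ((p₀, r₀), q₀)) with hF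
      have hFm : ∀ z ∈ F, z ∈ S ∧ p z = p₀ ∧
          (∀ a, (z a % (STQ_md p₀ v q₀ : ℤ)).toNat = r₀ a) ∧ q z = q₀ := by
        intro z hz
        rw [hF, mem_filter] at hz
        obtain ⟨hz1, hz2⟩ := hz
        simp only [Prod.mk.injEq] at hz2
        obtain ⟨⟨a1, a2⟩, a3⟩ := hz2
        refine ⟨hz1, a1, fun a => ?_, a3⟩
        have := congrFun a2 a
        rw [← a1, ← a3]
        exact this
      rcases F.eq_empty_or_nonempty with h0 | ⟨z₀, hz₀⟩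
      · rw [h0]
        simp only [card_empty, Nat.cast_zero]
        exact hb0
      obtain ⟨hz₀S, hz₀p, hz₀r, hz₀q⟩ := hFm z₀ hz₀
      have hp₀ : 1 ≤ p₀ := by
        rw [← hz₀p]
        exact (hpq z₀ hz₀S).1
      have hmd : 0 < STQ_md p₀ v q₀ := by
        rcases q₀ with _ | (i | t)
        · exact hp₀
        · exact Nat.pow_pos hp₀
        · exact hp₀
      have hdvd : ∀ x ∈ F, ∀ y ∈ F, ∀ a, ((STQ_md p₀ v q₀ : ℕ) : ℤ) ∣ y a - x a := by
        intro x hx y hy a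
        have a1 := (STP_res (x a) _ hmd).2
        have a2 := (STP_res (y a) _ hmd).2
        rw [(hFm x hx).2.2.1 a] at a1
        rw [(hFm y hy).2.2.1 a] at a2
        have := dvd_sub a2 a1
        rwa [sub_sub_sub_cancel_right] at this
      have hFinj : Set.InjOn (fun z => (eval z (en pt e 0), eval z (en pt e 1)))
          (F : Set (Fin n → ℤ)) := by
        intro x hx y hy hxy
        exact hinj (hFm x hx).1 (hFm y hy).1 hxy
      rcases q₀ with _ | (i | ⟨i, β, j⟩)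
      · -- flat points
        have hone : F.card ≤ 1 := by
          rw [Finset.card_le_one]
          intro x hx y hy
          obtain ⟨hxS, hxp, hxr, hxq⟩ := hFm x hx
          obtain ⟨hyS, hyp, hyr, hyq⟩ := hFm y hy
          obtain ⟨-, -, -, h5, -, -⟩ := hpq x hxS
          obtain ⟨h1, h2, h4, h5⟩ := h5 hxq
          rw [hxp] at h1 h2 h4
          obtain ⟨hx1, hx2, hx3⟩ := hS x hxS
          obtain ⟨hy1, hy2, hy3⟩ := hS y hyS
          have hsp : s ≤ p₀ := by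
            have : (s : ℝ) ≤ (p₀ : ℝ) := hN1.trans h2
            exact_mod_cast this
          have hcop : ∀ z : Fin n → ℤ, Sq pt e u w X E γ ε H z →
              IsCoprime (eval z (en pt e 0)) (eval z (en pt e 1)) := by
            intro z hz
            exact (hz.cop.of_mul_left_right).of_mul_right_right
          have hle : ∀ (t k : ℤ), t ≠ 0 → |((t * k : ℤ) : ℝ)| ≤ H →
              ((k : ℤ) : ℝ) ≤ Real.exp (X ^ c) := by
            intro t k ht h6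
            refine le_trans ?_ (h6.trans hH)
            push_cast
            rw [abs_mul]
            have hu1 : 1 ≤ |((t : ℤ) : ℝ)| := by
              have : 1 ≤ |t| := Int.one_le_abs ht
              exact_mod_cast this
            have h6 := le_abs_self ((k : ℤ) : ℝ)
            have h7 := abs_nonneg ((k : ℤ) : ℝ)
            nlinarith
          have hps : Real.exp (X ^ c) ^ 2 < (p₀ : ℝ) ^ s :=
            hN2.trans_le (pow_le_pow_left₀ hW0 h2 s)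
          have hfl := hFL2 n p₀ s pt e L (Real.exp (X ^ c)) x y h1 hsp hG (fun v => (he v).1)
            hx2 hy2 (hdvd x hx y hy) h4 h5 (fun v => ⟨hx1.pos v, hy1.pos v⟩)
            (hcop x hx1) (hcop y hy1) (hle u _ hu hx1.sm0) (hle w _ hw hx1.sm1)
            (hle u _ hu hy1.sm0) (hle w _ hw hy1.sm1) hps
          exact hinj hxS hyS (Prod.ext hfl.1 hfl.2)
        have : (F.card : ℝ) ≤ 1 := by exact_mod_cast hone
        exact this.trans hb1
      · -- near-units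
        obtain ⟨-, -, -, -, h5, -⟩ := hpq z₀ hz₀S
        obtain ⟨hi, hQ2, hQs, hQr, hQ1, hQE, hQJ⟩ := h5 i hz₀q
        rw [hz₀p] at hQ2 hQs hQr hQ1 hQE hQJ
        obtain ⟨G, hG0, hGv, hGC, hGS⟩ := hclq X L (fq pt e u w) i p₀ (v + 1) z₀ F hXY₁ hQ2 hQs
          (Nat.lt_succ_self v) hG hi hQr hQ1 hz₀ hQJ (by
            intro y hy
            obtain ⟨hyS, hyp, hyr, hyq⟩ := hFm y hy
            obtain ⟨hy1, hy2, hy3⟩ := hS y hyS
            obtain ⟨-, -, -, -, h6, -⟩ := hpq y hyS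
            obtain ⟨-, -, -, -, -, hyE, -⟩ := h6 i hyq
            rw [hyp] at hyE
            refine ⟨hy1.pos, hy1.le, fun a => ?_, hy2, ?_⟩
            · have h7 := hdvd z₀ hz₀ y hy a
              have h8 : ((STQ_md p₀ v (some (Sum.inl i) : STQ_Lb n s) : ℕ) : ℤ) =
                  (p₀ : ℤ) ^ ((v + 1) + (n + 1) * v) := by
                show (((p₀ ^ ((v + 1) + (n + 1) * v) : ℕ)) : ℤ) = _
                push_cast
                rfl
              rwa [h8] at h7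
            · rw [← pow_mul]
              exact (pow_dvd_pow _ hrE).trans hyE)
        refine hA X H γ pt e u w L G E F hXY₃ (le_max_left _ _) (min_le_left _ _) hH1 he hu hw hG
          hcard hCx hG0 hGv (STQ_cx hX1 (le_max_left _ _) hGC) ⟨i, hi⟩ ?_ hFinj
        intro z hz
        obtain ⟨hz1, hz2, hz3⟩ := hS z (hFm z hz).1
        exact ⟨hz1, hz2, hz3, hGS z hz⟩
      · -- additional exact equations
        obtain ⟨-, -, -, -, -, h5⟩ := hpq z₀ hz₀S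
        obtain ⟨h1, h2, h4, hj1, hj2, hj3⟩ := h5 i β j hz₀q
        rw [hz₀p] at h1 h2 h4 hj3
        set g : Pl n := dw (TD L) (fun v => (β v : ℕ)) (gd pt e (TD L i)) with hg
        have hTJ : ¬ (p₀ : ℤ) ∣ eval z₀ (TJ ((g, j) :: L)) := by
          have h6 : TJ ((g, j) :: L) = TJ L * TD L j g := rfl
          rw [h6, map_mul]
          intro h7
          rcases (Nat.prime_iff_prime_int.mp h1).dvd_or_dvd h7 with h8 | h8
          · exact h4 h8
          · exact hj3 h8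
        obtain ⟨G, hG0, hGv, hGC, hGS⟩ := hcls X L g j p₀ z₀ F hXY₂ hG hj1 h1 h2 hz₀ hTJ (by
            intro y hy
            obtain ⟨hyS, hyp, hyr, hyq⟩ := hFm y hy
            obtain ⟨hy1, hy2, hy3⟩ := hS y hyS
            obtain ⟨-, -, -, -, -, h6⟩ := hpq y hyS
            obtain ⟨-, -, -, -, hyg, -⟩ := h6 i β j hyq
            refine ⟨hy1.pos, hy1.le, fun a => hdvd z₀ hz₀ y hy a, ?_⟩
            intro t ht
            rcases List.mem_cons.mp ht with rfl | ht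
            · exact hyg
            · exact hy2 t ht)
        refine hA X H γ pt e u w L G E F hXY₃ (le_max_left _ _) (min_le_left _ _) hH1 he hu hw hG
          hcard hCx hG0 hGv (STQ_cx hX1 (le_max_right _ _) hGC) ⟨j, hj1⟩ ?_ hFinj
        intro z hz
        obtain ⟨hz1, hz2, hz3⟩ := hS z (hFm z hz).1
        exact ⟨hz1, hz2, hz3, hGS z hz⟩)
  refine hmain.trans ?_
  rw [card_product]
  push_cast
  have hK : ((univ : Finset (STQ_Lb n s)).card : ℝ) ≤ X ^ (δ / 2) := by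
    refine le_trans ?_ hN3
    rw [card_univ, Fintype.card_option, Fintype.card_sum, Fintype.card_prod,
      Fintype.card_prod, Fintype.card_fun]
    simp only [Fintype.card_fin]
    push_cast
    have h1 : (0 : ℝ) ≤ (n : ℝ) := Nat.cast_nonneg n
    have h2 : (0 : ℝ) ≤ (s : ℝ) ^ n := by positivity
    have h3 : (0 : ℝ) ≤ (n : ℝ) * (n * (s : ℝ) ^ n) := by positivity
    nlinarith
  have hC := STP_cnt W hW2 n
  have hX00 : 0 ≤ X ^ (δ / 2) := Real.rpow_nonneg hX0.le _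
  calc _ ≤ W ^ (2 * n + 3) * X ^ (δ / 2) * b := by
        refine mul_le_mul_of_nonneg_right ?_ hb0
        exact mul_le_mul hC hK (Nat.cast_nonneg _) (by positivity)
    _ ≤ W ^ (2 * n + 5) * X ^ (δ / 2) * b := by
        refine mul_le_mul_of_nonneg_right (mul_le_mul_of_nonneg_right ?_ hX00) hb0
        exact pow_le_pow_right₀ hW1 (by omega)
    _ = X ^ (((m : ℝ) + 1) * (2 * n + 6) * δ) := by
      rw [hb, hWdef, ← STP_pow X δ hX0.le]
      rw [mul_assoc, ← mul_assoc (X ^ (δ / 2)), ← Real.rpow_add hX0, ← Real.rpow_add hX0,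
        ← Real.rpow_add hX0]
      congr 1
      push_cast
      ring

theorem STQ_zero (n B B₁ : ℕ) (δ ε : ℝ) : STQ_GS n 0 B B₁ δ ε := by
  refine ⟨0, 1, 1, 2, one_pos, one_pos, le_refl _, ?_⟩
  intro Y H γ' pt e u w L G E' S _ _ _ _ _ _ _ _ hcard _ _ _ _ hne
  rw [Finset.card_eq_zero.1 hcard] at hne
  exact absurd hne Finset.not_nonempty_empty

theorem STQ_succ (hGSQ : T_GSQ) (n m B B₁ : ℕ) (δ ε : ℝ) (hδ : 0 < δ) (hδ1 : δ ≤ 1)
    (hrec : ∀ B', RecQ n δ ε m B') : STQ_GS n (m + 1) B B₁ δ ε := by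
  obtain ⟨E, γ, c, Y₀, hγ, hc, hY, h⟩ := hGSQ n m B B₁ δ ε hδ hδ1 hrec
  refine ⟨E, γ, c, Y₀, hγ, hc, hY, ?_⟩
  intro Y H γ' pt e u w L G E' S h1 h2 h3 h4 h5 h6 h7 h8 h9 h10 h11 h12 h13 _ h14 h15
  have e1 : ((m + 1 : ℕ) : ℝ) = (m : ℝ) + 1 := by push_cast; ring
  rw [e1]
  exact h Y H γ' pt e u w L G E' S h1 h2 h3 h4 h5 h6 h7 h8 h9 h10 h11 h12 h13 h14 h15

theorem pf_STQ (hCVQ : T_CVQ) (hCLQ : T_CLQ) (hCLS : T_CLS) (hGSQ : T_GSQ) (hNUM : T_NUM)
    (hFL2 : T_FL2) : T_STQ :=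
  ⟨fun n B δ ε hδ hδ1 hε => STQ_gen hCVQ hCLQ hCLS hNUM hFL2 n 0 B δ ε hδ hδ1 hε
      (fun B₁ => STQ_zero n B B₁ δ ε),
    fun n m B δ ε hδ hδ1 hε hrec => STQ_gen hCVQ hCLQ hCLS hNUM hFL2 n (m + 1) B δ ε hδ hδ1 hε
      (fun B₁ => STQ_succ hGSQ n m B B₁ δ ε hδ hδ1 hrec)⟩

end Pool.Agent.H26.QQ
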