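import Pool.Agent.H26.QQ.Defs
import Pool.Agent.H29.FX.TargetsQ

/-!
# Triples with one dusty entry (MP_7ecdd4_nt): exact targets
-/

set_option autoImplicit false

open Finset MvPolynomial

namespace Pool.Agent.H26.QQ

open Pool.Agent.H29.FX
open Pool.Agent.H38.AE.Statement

/-! ### Choice of the modulus -/

/-- (PCK) a subset with a product of prescribed size. -/
def T_PCK : Prop :=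
  ∀ (A G : ℝ) (D : Finset ℕ), 1 ≤ A → 1 ≤ G → (∀ l ∈ D, 1 ≤ l ∧ (l : ℝ) ≤ G) →
    A ≤ ∏ l ∈ D, (l : ℝ) →
    ∃ D' : Finset ℕ, D' ⊆ D ∧ A ≤ ∏ l ∈ D', (l : ℝ) ∧ ∏ l ∈ D', (l : ℝ) ≤ A * G

/-- (SPL) small primes and primes with a high power dividing `N` have a small product. -/
def T_SPL : Prop :=
  ∀ (D : Finset ℕ) (N : ℤ) (v s : ℕ) (K : ℝ), (∀ l ∈ D, l.Prime) → N ≠ 0 → |(N : ℝ)| ≤ K →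
    ∃ D' : Finset ℕ, D' ⊆ D ∧ (∀ l ∈ D', s ≤ l ∧ ¬ (l : ℤ) ^ (v + 1) ∣ N) ∧
      ∏ l ∈ D, (l : ℝ) ≤ (∏ l ∈ D', (l : ℝ)) * (s : ℝ) ^ s * K ^ (1 / ((v : ℝ) + 1))

/-- (NUV) the valuation of the determinant with the dusty equation. -/
def T_NUV : Prop :=
  ∀ (n : ℕ) (pt : Fin n → Fin 3) (e : Fin n → ℕ) (u w : ℤ) (L : Tw n) (z : Fin n → ℤ)
    (i : Fin n) (l E v : ℕ), (∀ v, 1 ≤ e v) → l.Prime → v + 1 ≤ E →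
    (l : ℤ) ^ E ∣ eval z (fq pt e u w) →
    IsCoprime (u * eval z (en pt e 0)) (w * eval z (en pt e 1)) →
    ¬ (l : ℤ) ^ (v + 1) ∣ eval z (TJ L) * eval z (gd pt e (TD L i)) →
    ¬ (l : ℤ) ^ (v + 1) ∣ eval z (TJ ((fq pt e u w, i) :: L))

/-! ### The cases -/

/-- (TYQ) flat points and points with an additional exact equation. -/
def T_TYQ : Prop :=
  ∀ (n s : ℕ) (pt : Fin n → Fin 3) (e : Fin n → ℕ) (L : Tw n) (z : Fin n → ℤ), Gd L →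
    (∀ i ∈ TI L, eval z (gd pt e (TD L i)) = 0) →
    Fl2 pt e L s z ∨ ∃ (i : Fin n) (β : Fin n → Fin s) (j : Fin n), j ∈ TI L ∧
      eval z (dw (TD L) (fun v => (β v : ℕ)) (gd pt e (TD L i))) = 0 ∧
      eval z (TD L j (dw (TD L) (fun v => (β v : ℕ)) (gd pt e (TD L i)))) ≠ 0

/-- (BNQ) bounds for the values. -/
def T_BNQ : Prop :=
  ∀ n B : ℕ, ∃ B' : ℕ, ∀ (Y : ℝ) (s : ℕ) (pt : Fin n → Fin 3) (e : Fin n → ℕ) (L : Tw n)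
    (z : Fin n → ℤ), 2 ≤ Y → (s : ℝ) ≤ Y → Gd L → (∀ q ∈ L, Cx Y B q.1) →
    (∀ v, 1 ≤ e v ∧ (e v : ℝ) ≤ Y) → (∀ v, 1 ≤ z v) → ∏ v, (z v : ℝ) ≤ Y →
    |((eval z (TJ L) : ℤ) : ℝ)| ≤ Y ^ B' ∧
    (∀ i, |((eval z (gd pt e (TD L i)) : ℤ) : ℝ)| ≤ Y ^ B') ∧
    ∀ (i : Fin n) (β : Fin n → Fin s) (j : Fin n),
      |((eval z (TD L j (dw (TD L) (fun v => (β v : ℕ)) (gd pt e (TD L i)))) : ℤ) : ℝ)| ≤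
        Y ^ (B' * (s + 1))

/-- (CVQ) every pair belongs to a class. -/
def T_CVQ : Prop :=
  ∀ (n B : ℕ) (δ ε : ℝ), 0 < δ → δ ≤ 1 → 0 < ε → ∃ v : ℕ, ∀ s₀ : ℕ, ∃ γ : ℝ, 0 < γ ∧
    ∀ c : ℝ, 0 < c → c ≤ δ / (8 * (n + 1)) → ∃ Y₀ : ℝ, 2 ≤ Y₀ ∧
    ∀ (Y H γ' : ℝ) (pt : Fin n → Fin 3) (e : Fin n → ℕ) (u w : ℤ) (L : Tw n)
      (z : Fin n → ℤ) (E : ℕ), Y₀ ≤ Y → v + 1 ≤ E → γ' ≤ γ → H ≤ Real.exp (Y ^ c) →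
      (∀ v, 1 ≤ e v ∧ (e v : ℝ) ≤ Y) → Gd L → (∀ q ∈ L, Cx Y B q.1) →
      Sq pt e u w Y E γ' ε H z → eval z (TJ L) ≠ 0 →
      (∃ (i : Fin n) (Q : ℕ), i ∈ TI L ∧ 2 ≤ Q ∧ Squarefree Q ∧
        (∀ l : ℕ, l.Prime → l ∣ Q → s₀ ≤ l) ∧ Y ^ (δ / (n + 2)) ≤ (Q : ℝ) ^ (v + 1) ∧
        (Q : ℝ) ^ (v + 1) ≤ Y ^ (2 * (δ / (n + 2))) ∧
        (Q : ℤ) ^ E ∣ eval z (fq pt e u w) ∧
        ∀ l : ℕ, l.Prime → l ∣ Q →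
          ¬ (l : ℤ) ^ (v + 1) ∣ eval z (TJ ((fq pt e u w, i) :: L))) ∨
      ∃ p : ℕ, p.Prime ∧ Y ^ δ ≤ p ∧ (p : ℝ) ≤ Y ^ (2 * δ) ∧ ¬ (p : ℤ) ∣ eval z (TJ L) ∧
        (Fl2 pt e L ⌊Y ^ (2 * c)⌋₊ z ∨
        ∃ (i : Fin n) (β : Fin n → Fin ⌊Y ^ (2 * c)⌋₊) (j : Fin n), j ∈ TI L ∧
          eval z (dw (TD L) (fun v => (β v : ℕ)) (gd pt e (TD L i))) = 0 ∧
          ¬ (p : ℤ) ∣ eval z (TD L j (dw (TD L) (fun v => (β v : ℕ)) (gd pt e (TD L i)))))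

/-- (FL2) a flat point is alone in its class. -/
def T_FL2 : Prop :=
  ∀ (n p s : ℕ) (pt : Fin n → Fin 3) (e : Fin n → ℕ) (L : Tw n) (H : ℝ) (x y : Fin n → ℤ),
    p.Prime → s ≤ p → Gd L → (∀ v, 1 ≤ e v) → On L x → On L y →
    (∀ v, (p : ℤ) ∣ y v - x v) → ¬ (p : ℤ) ∣ eval x (TJ L) → Fl2 pt e L s x →
    (∀ v, 1 ≤ x v ∧ 1 ≤ y v) → IsCoprime (eval x (en pt e 0)) (eval x (en pt e 1)) →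
    IsCoprime (eval y (en pt e 0)) (eval y (en pt e 1)) →
    ((eval x (en pt e 0) : ℤ) : ℝ) ≤ H → ((eval x (en pt e 1) : ℤ) : ℝ) ≤ H →
    ((eval y (en pt e 0) : ℤ) : ℝ) ≤ H → ((eval y (en pt e 1) : ℤ) : ℝ) ≤ H →
    H ^ 2 < (p : ℝ) ^ s →
    eval x (en pt e 0) = eval y (en pt e 0) ∧ eval x (en pt e 1) = eval y (en pt e 1)

/-! ### The recursion -/

/-- (GSQ) pairs on a new hypersurface of bounded complexity. -/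
def T_GSQ : Prop :=
  ∀ (n m B B₁ : ℕ) (δ ε : ℝ), 0 < δ → δ ≤ 1 → (∀ B', RecQ n δ ε m B') →
    ∃ (E : ℕ) (γ c Y₀ : ℝ), 0 < γ ∧ 0 < c ∧ 2 ≤ Y₀ ∧ ∀ (Y H γ' : ℝ) (pt : Fin n → Fin 3)
      (e : Fin n → ℕ) (u w : ℤ) (L : Tw n) (G : Pl n) (E' : ℕ) (S : Finset (Fin n → ℤ)),
      Y₀ ≤ Y → E ≤ E' → γ' ≤ γ → H ≤ Real.exp (Y ^ c) →
      (∀ v, 1 ≤ e v ∧ (e v : ℝ) ≤ Y) → u ≠ 0 → w ≠ 0 → Gd L → (TI L).card = m + 1 →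
      (∀ q ∈ L, Cx Y B q.1) → G ≠ 0 → G.vars ⊆ TI L → Cx Y B₁ G →
      (∀ z ∈ S, Sq pt e u w Y E' γ' ε H z ∧ On L z ∧ eval z (TJ L) ≠ 0 ∧ eval z G = 0) →
      Set.InjOn (fun z => (eval z (en pt e 0), eval z (en pt e 1))) (S : Set (Fin n → ℤ)) →
      (S.card : ℝ) ≤ Y ^ (δ / 2) * Y ^ (((m : ℝ) + 1) * (2 * n + 6) * δ)

/-- (STQ) the step of the recursion. -/
def T_STQ : Prop :=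
  (∀ (n B : ℕ) (δ ε : ℝ), 0 < δ → δ ≤ 1 → 0 < ε → RecQ n δ ε 0 B) ∧
  ∀ (n m B : ℕ) (δ ε : ℝ), 0 < δ → δ ≤ 1 → 0 < ε → (∀ B', RecQ n δ ε m B') →
    RecQ n δ ε (m + 1) B

/-- (FNQ) two entries which are products of `k` powers, one dusty entry. -/
def T_FNQ : Prop :=
  ∀ (k : ℕ) (η : ℝ), 0 < η → ∃ (E : ℕ) (γ c C : ℝ), 0 < γ ∧ 0 < c ∧ 0 < C ∧
    ∀ (Y : ℝ) (u : Fin 3 → ℤ) (a : Fin 3), 2 ≤ Y →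
      (DustPowers k u a E γ η Y (Real.exp (Y ^ c))).Finite ∧
      ((DustPowers k u a E γ η Y (Real.exp (Y ^ c))).ncard : ℝ) ≤ C * Y ^ η

/-! ### Few exponents in two entries -/

/-- (RP2) the representation by powers of two of the entries. -/
def T_RP2 : Prop :=
  ∀ (k Q : ℕ) (Y : ℝ) (x : Fin 3 → ℤ) (a : Fin 3), Admissible x → 1 ≤ Q →
    (radical (∏ i, x i) : ℝ) ≤ Y → (exponents Q (∏ i ∈ univ.erase a, x i)).card ≤ k →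
    ∃ u : Fin 3 → ℤ, (∀ i, u i ≠ 0 ∧ |u i| ≤ |x i| ∧ ∀ p : ℕ, p.Prime → (p : ℤ) ∣ u i →
        p ∣ Q) ∧ u a = 1 ∧
      ∃ z e : Fin 3 → Fin k → ℕ, (∀ i j, 1 ≤ z i j ∧ 1 ≤ e i j) ∧
        (∀ i, i ≠ a → x i = u i * ∏ j, (z i j : ℤ) ^ e i j) ∧ ∏ i, ∏ j, (z i j : ℝ) ≤ Y

/-- (FNU) few exponents in two entries, one dusty entry. -/
def T_FNU : Prop :=
  ∀ (k : ℕ) (η : ℝ), 0 < η → ∃ (E : ℕ) (γ : ℝ), 0 < γ ∧ ∀ (A θ : ℝ), 0 ≤ θ →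
    ∀ (E' : ℕ) (γ' : ℝ), E ≤ E' → γ' ≤ γ → ∃ C : ℝ, 0 < C ∧ ∀ (Y : ℝ) (a : Fin 3), 2 ≤ Y →
      (DustFew k a E' γ' η (Y ^ θ) Y (Y ^ A)).Finite ∧
      ((DustFew k a E' γ' η (Y ^ θ) Y (Y ^ A)).ncard : ℝ) ≤ C * Y ^ (θ + η)

/-- (EXO) the exponents outside the dust. -/
def T_EXO : Prop :=
  ∀ (E m Q : ℕ) (γ Y : ℝ) (N : ℤ), 2 ≤ Y → 0 < γ → 1 ≤ γ * m → N ≠ 0 →
    (radical N : ℝ) ≤ Y →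
    (∀ p : ℕ, p.Prime → (p : ℝ) ≤ Y ^ γ → (p : ℤ) ^ E ∣ N → p ∣ Q) →
    (exponents Q N).card ≤ E + m

/-- (TPL) few exponents in two of the entries. -/
def T_TPL : Prop :=
  ∀ (k : ℕ) (η : ℝ), 0 < η → ∃ M : ℝ, 0 < M ∧ ∀ A θ : ℝ, 0 ≤ θ → ∃ C : ℝ, 0 < C ∧
    ∀ Y : ℝ, 2 ≤ Y → (TwoFew k M (Y ^ θ) Y (Y ^ A)).Finite ∧
      ((TwoFew k M (Y ^ θ) Y (Y ^ A)).ncard : ℝ) ≤ C * Y ^ (θ + η)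

/-! ### All triples -/

/-- (CHN) the scales. -/
def T_CHN : Prop :=
  ∀ (P : ℕ → ℕ → ℝ → Prop) (η : ℝ), 0 < η →
    (∀ k, ∃ (E : ℕ) (γ : ℝ), 0 < γ ∧ ∀ (E' : ℕ) (γ' : ℝ), E ≤ E' → γ' ≤ γ → P k E' γ') →
    ∃ (E m : ℕ → ℕ) (γ : ℕ → ℝ), (∀ t, 0 < γ t ∧ γ t ≤ η ∧ 1 ≤ γ t * m t ∧
      2 / η ≤ E t ∧ E t ≤ E (t + 1) ∧ γ (t + 1) ≤ γ t ∧ P (E t + m t) (E (t + 1)) (γ (t + 1)))

/-- the dust of `N`: the primes `p ≤ Y ^ γ` with `p ^ E ∣ N` -/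
noncomputable def du (E : ℕ) (γ Y : ℝ) (N : ℤ) : Finset ℕ :=
  N.natAbs.primeFactors.filter fun p => (p : ℝ) ≤ Y ^ γ ∧ (p : ℤ) ^ E ∣ N

/-- (PGH) a scale at which the dust does not change. -/
def T_PGH : Prop :=
  ∀ (η Y : ℝ) (T : ℕ) (E : ℕ → ℕ) (γ : ℕ → ℝ) (N : ℤ), 0 < η → 1 ≤ T * η → 2 ≤ Y → N ≠ 0 →
    (radical N : ℝ) ≤ Y →
    ∃ t < T, ∏ p ∈ du (E t) (γ t) Y N, (p : ℝ) ≤
      Y ^ η * ∏ p ∈ du (E (t + 1)) (γ (t + 1)) Y N, (p : ℝ)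

/-- (CHP) a dusty entry has a cheap divisor. -/
def T_CHP : Prop :=
  ∀ (η γ Y : ℝ) (E : ℕ) (F : ℤ), 0 < η → 0 < γ → γ ≤ η → 2 / η ≤ E → 2 ≤ Y →
    Dust E γ η Y F → ∃ q : ℕ, 1 ≤ q ∧ (q : ℤ) ∣ F ∧ Y ^ (2 : ℝ) ≤ q ∧
      (Pool.Agent.H38.AE.rad q : ℝ) ≤ Y ^ (2 * η)

/-- (EXB) all violators of large exponent. -/
def T_EXB : Prop :=
  ∀ ε : ℝ, 0 < ε → ∃ M : ℝ, 0 < M ∧ ∀ A : ℝ, ∃ C : ℝ, 0 < C ∧ ∀ Y : ℝ, 2 ≤ Y →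
    (Violating M Y (Y ^ A)).Finite ∧
      ((Violating M Y (Y ^ A)).ncard : ℝ) ≤ C * Y ^ (1 / 3 + ε)

end Pool.Agent.H26.QQ
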